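import Mathlib

/-!
A numerical contraction lemma for the intersection matrix of one fibre of a fibred surface.
-/

set_option autoImplicit false

open Finset

namespace Pool.Agent.MP_c69980_ag.N36

variable {I : Type*} [DecidableEq I]

/-- The data of a bubble vector `v` between the classes `o` and `c`. -/
structure Bub (S : Finset I) (a : I → I → ℤ) (k β : I → ℤ) (o c : I) (v : I → ℤ) : Prop where
  nn : ∀ i ∈ S, 0 ≤ v i
  row : ∀ i ∈ S, ∑ j ∈ S, a i j * v j = (if i = c then 1 else 0) - (if i = o then 1 else 0)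
  adj : ∑ j ∈ S, k j * v j + v c + v o = 0
  bd : ∑ j ∈ S, β j * v j = 0

/-- The data of the fibre. -/
structure Fib (S : Finset I) (a : I → I → ℤ) (m k : I → ℤ) (M : ℤ) (d η β : I → ℤ) : Prop where
  symm : ∀ i ∈ S, ∀ j ∈ S, a i j = a j i
  off : ∀ i ∈ S, ∀ j ∈ S, i ≠ j → 0 ≤ a i j
  mpos : ∀ i ∈ S, 1 ≤ m i
  ker : ∀ i ∈ S, ∑ j ∈ S, a i j * m j = 0
  gen : ∀ i ∈ S, -2 ≤ k i + a i i
  Mpos : 1 ≤ M
  eta : ∀ i ∈ S, 0 ≤ η i
  beta : ∀ i ∈ S, 0 ≤ β i
  can : ∀ i ∈ S, ∑ j ∈ S, a i j * d j + η i - M * β i = M * k i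

theorem zero_a {S : Finset I} {a : I → I → ℤ} {k β : I → ℤ} {o c' : I} {w : I → ℤ}
    (off : ∀ i ∈ S, ∀ j ∈ S, i ≠ j → 0 ≤ a i j) (ho : o ∈ S)
    (hw : Bub S a k β o c' w) (h0 : w o = 0) : o = c' := by
  by_contra hne
  have h1 := hw.row o ho
  rw [if_neg hne, if_pos rfl] at h1
  have h2 : 0 ≤ ∑ j ∈ S, a o j * w j := by
    refine sum_nonneg fun j hj => ?_
    by_cases h : o = j
    · subst h; rw [h0]; simp
    · exact mul_nonneg (off o ho j hj h) (hw.nn j hj)
  omega

theorem zero_b {S : Finset I} {a : I → I → ℤ} {k β : I → ℤ} {o c c' : I} {v w : I → ℤ}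
    (symm : ∀ i ∈ S, ∀ j ∈ S, a i j = a j i)
    (off : ∀ i ∈ S, ∀ j ∈ S, i ≠ j → 0 ≤ a i j) (ho : o ∈ S) (hc : c ∈ S)
    (hv : Bub S a k β o c v) (hw : Bub S a k β o c' w) (h0 : w o = 0) : w c = 0 := by
  have h1 := zero_a off ho hw h0
  subst h1
  have h2 : ∑ i ∈ S, w i * ∑ j ∈ S, a i j * v j = ∑ j ∈ S, v j * ∑ i ∈ S, a j i * w i := by
    simp only [mul_sum]
    rw [sum_comm]
    refine sum_congr rfl fun j hj => sum_congr rfl fun i hi => ?_
    rw [symm i hi j hj]; ring
  have h3 : ∑ j ∈ S, v j * ∑ i ∈ S, a j i * w i = 0 := by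
    refine sum_eq_zero fun j hj => ?_
    rw [hw.row j hj]; simp
  have h4 : ∑ i ∈ S, w i * ∑ j ∈ S, a i j * v j = w c - w o := by
    rw [sum_congr rfl fun i hi => by rw [hv.row i hi]]
    simp only [mul_sub, sum_sub_distrib, mul_ite, mul_one, mul_zero]
    rw [sum_ite_eq' S c, sum_ite_eq' S o, if_pos hc, if_pos ho]
  omega

theorem split_sum {S : Finset I} {e : I} (he : e ∈ S) (f : I → ℤ) :
    ∑ j ∈ S, f j = f e + ∑ j ∈ S.erase e, f j := (add_sum_erase S f he).symm

/-- a component of negative canonical degree that meets no boundary is exceptional -/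
theorem exc {S : Finset I} {a : I → I → ℤ} {m k : I → ℤ} {M : ℤ} {d η β : I → ℤ}
    (F : Fib S a m k M d η β) {e : I} (he : e ∈ S) (hk : k e < 0) (hb : β e = 0) :
    k e = -1 ∧ a e e = -1 := by
  have h1 := F.ker e he
  rw [split_sum he] at h1
  have hnn : ∀ j ∈ S.erase e, 0 ≤ a e j * m j := fun j hj =>
    mul_nonneg (F.off e he j (mem_of_mem_erase hj) (ne_of_mem_erase hj).symm)
      (by have := F.mpos j (mem_of_mem_erase hj); omega)
  have h2 : 0 ≤ ∑ j ∈ S.erase e, a e j * m j := sum_nonneg hnn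
  have hm := F.mpos e he
  have h3 : a e e ≤ 0 := by
    by_contra h
    have : 0 < a e e * m e := mul_pos (by omega) (by omega)
    omega
  have h4 : a e e ≠ 0 := by
    intro h
    rw [h, zero_mul, zero_add] at h1
    have h5 := (sum_eq_zero_iff_of_nonneg hnn).1 h1
    have h6 : ∑ j ∈ S, a e j * d j = 0 := by
      rw [split_sum he, h, zero_mul, zero_add]
      refine sum_eq_zero fun j hj => ?_
      have h7 := h5 j hj
      have h8 := F.mpos j (mem_of_mem_erase hj)
      rcases mul_eq_zero.1 h7 with h9 | h9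
      · rw [h9, zero_mul]
      · omega
    have h7 := F.can e he
    rw [h6, hb] at h7
    have h8 := F.eta e he
    have h9 : M * k e < 0 := mul_neg_of_pos_of_neg (by have := F.Mpos; omega) hk
    omega
  have h5 := F.gen e he
  omega

/-- the contracted fibre -/
theorem Fib.contract {S : Finset I} {a : I → I → ℤ} {m k : I → ℤ} {M : ℤ} {d η β : I → ℤ}
    (F : Fib S a m k M d η β) {e : I} (he : e ∈ S) (hk : k e = -1) (ha : a e e = -1)
    (hb : β e = 0) :
    Fib (S.erase e) (fun i j => a i j + a e i * a e j) m (fun i => k i - a e i) M d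
      (fun i => η i + a e i * η e) β := by
  have hn : ∀ j ∈ S.erase e, 0 ≤ a e j := fun j hj =>
    F.off e he j (mem_of_mem_erase hj) (ne_of_mem_erase hj).symm
  refine ⟨fun i hi j hj => ?_, fun i hi j hj hij => ?_, fun i hi => F.mpos i (mem_of_mem_erase hi),
    fun i hi => ?_, fun i hi => ?_, F.Mpos, fun i hi => ?_,
    fun i hi => F.beta i (mem_of_mem_erase hi), fun i hi => ?_⟩
  · rw [F.symm i (mem_of_mem_erase hi) j (mem_of_mem_erase hj)]; ring
  · exact add_nonneg (F.off i (mem_of_mem_erase hi) j (mem_of_mem_erase hj) hij)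
      (mul_nonneg (hn i hi) (hn j hj))
  · have h1 := F.ker i (mem_of_mem_erase hi)
    have h2 := F.ker e he
    rw [split_sum he] at h1 h2
    rw [F.symm i (mem_of_mem_erase hi) e he] at h1
    rw [ha] at h2
    have h3 : ∑ j ∈ S.erase e, (a i j + a e i * a e j) * m j =
        ∑ j ∈ S.erase e, a i j * m j + a e i * ∑ j ∈ S.erase e, a e j * m j := by
      rw [mul_sum, ← sum_add_distrib]
      exact sum_congr rfl fun j _ => by ring
    rw [h3]
    linear_combination h1 + a e i * h2
  · have h1 := F.gen i (mem_of_mem_erase hi)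
    have h2 : a e i ≤ a e i * a e i := by nlinarith [sq_nonneg (2 * a e i - 1), Int.le_self_sq (a e i)]
    omega
  · exact add_nonneg (F.eta i (mem_of_mem_erase hi)) (mul_nonneg (hn i hi) (F.eta e he))
  · have h1 := F.can i (mem_of_mem_erase hi)
    have h2 := F.can e he
    rw [split_sum he] at h1 h2
    rw [F.symm i (mem_of_mem_erase hi) e he] at h1
    rw [ha, hk, hb] at h2
    have h3 : ∑ j ∈ S.erase e, (a i j + a e i * a e j) * d j =
        ∑ j ∈ S.erase e, a i j * d j + a e i * ∑ j ∈ S.erase e, a e j * d j := by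
      rw [mul_sum, ← sum_add_distrib]
      exact sum_congr rfl fun j _ => by ring
    rw [h3]
    linear_combination h1 + a e i * h2

/-- a reduced exceptional component meets exactly one other component -/
theorem nbr {S : Finset I} {a : I → I → ℤ} {m k : I → ℤ} {M : ℤ} {d η β : I → ℤ}
    (F : Fib S a m k M d η β) {e : I} (he : e ∈ S) (ha : a e e = -1) (hm : m e = 1) :
    ∃ j0 ∈ S.erase e, m j0 = 1 ∧ ∀ j ∈ S.erase e, a e j = if j = j0 then 1 else 0 := by
  have hn : ∀ j ∈ S.erase e, 0 ≤ a e j := fun j hj =>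
    F.off e he j (mem_of_mem_erase hj) (ne_of_mem_erase hj).symm
  have hp : ∀ j ∈ S.erase e, 1 ≤ m j := fun j hj => F.mpos j (mem_of_mem_erase hj)
  have hnn : ∀ j ∈ S.erase e, 0 ≤ a e j * m j := fun j hj =>
    mul_nonneg (hn j hj) (by have := hp j hj; omega)
  have h2 := F.ker e he
  rw [split_sum he, ha, hm] at h2
  have h3 : ∑ j ∈ S.erase e, a e j * m j ≠ 0 := by omega
  obtain ⟨j0, hj0, h4⟩ := exists_ne_zero_of_sum_ne_zero h3
  rw [split_sum hj0] at h2
  have hnn' : ∀ j ∈ (S.erase e).erase j0, 0 ≤ a e j * m j := fun j hj =>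
    hnn j (mem_of_mem_erase hj)
  have h5 := sum_nonneg hnn'
  have h6 := hnn j0 hj0
  have h7 : a e j0 * m j0 = 1 := by omega
  have h8 : ∑ j ∈ (S.erase e).erase j0, a e j * m j = 0 := by omega
  have h9 := (sum_eq_zero_iff_of_nonneg hnn').1 h8
  have h10 : a e j0 = 1 := Int.eq_one_of_mul_eq_one_right (hn j0 hj0) h7
  refine ⟨j0, hj0, by rw [h10, one_mul] at h7; exact h7, fun j hj => ?_⟩
  by_cases h : j = j0
  · rw [if_pos h, h, h10]
  · rw [if_neg h]
    have h11 := h9 j (mem_erase.2 ⟨h, hj⟩)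
    have h12 := hp j hj
    rcases mul_eq_zero.1 h11 with h13 | h13
    · exact h13
    · omega

/-- the contracted bubble vector; `r` sends `e` to its neighbour -/
theorem Bub.contract {S : Finset I} {a : I → I → ℤ} {k β : I → ℤ} {o c : I} {v : I → ℤ}
    (B : Bub S a k β o c v) (symm : ∀ i ∈ S, ∀ j ∈ S, a i j = a j i)
    {e : I} (he : e ∈ S) (hk : k e = -1) (ha : a e e = -1) (hb : β e = 0) (j0 : I)
    (hj : o = e ∨ c = e → j0 ∈ S.erase e ∧ ∀ j ∈ S.erase e, a e j = if j = j0 then 1 else 0) :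
    Bub (S.erase e) (fun i j => a i j + a e i * a e j) (fun i => k i - a e i) β
      (if o = e then j0 else o) (if c = e then j0 else c) v ∧
    (o = e ∨ c = e → v j0 = v e + (if e = c then 1 else 0) - (if e = o then 1 else 0)) := by
  have h2 := B.row e he
  rw [split_sum he, ha] at h2
  have hv : o = e ∨ c = e → v j0 = v e + (if e = c then 1 else 0) - (if e = o then 1 else 0) := by
    intro h
    obtain ⟨h3, h4⟩ := hj h
    have h5 : ∑ j ∈ S.erase e, a e j * v j = v j0 := by
      rw [sum_congr rfl fun j hj => by rw [h4 j hj]]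
      simp only [ite_mul, one_mul, zero_mul]
      rw [sum_ite_eq' (S.erase e) j0, if_pos h3]
    rw [h5] at h2
    omega
  refine ⟨⟨fun i hi => B.nn i (mem_of_mem_erase hi), fun i hi => ?_, ?_, ?_⟩, hv⟩
  · have h1 := B.row i (mem_of_mem_erase hi)
    rw [split_sum he, symm i (mem_of_mem_erase hi) e he] at h1
    have h3 : ∑ j ∈ S.erase e, (a i j + a e i * a e j) * v j =
        ∑ j ∈ S.erase e, a i j * v j + a e i * ∑ j ∈ S.erase e, a e j * v j := by
      rw [mul_sum, ← sum_add_distrib]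
      exact sum_congr rfl fun j _ => by ring
    have h4 : ∑ j ∈ S.erase e, (a i j + a e i * a e j) * v j =
        (if i = c then 1 else 0) - (if i = o then 1 else 0) +
          a e i * ((if e = c then 1 else 0) - (if e = o then 1 else 0)) := by
      rw [h3]; linear_combination h1 + a e i * h2
    rw [h4]
    have hie : i ≠ e := ne_of_mem_erase hi
    by_cases ho : o = e
    · have h5 := (hj (Or.inl ho)).2 i hi
      by_cases hc : c = e
      · simp [ho, hc]
      · have hc' : ¬ e = c := fun h => hc h.symm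
        simp only [ho, hc, hc', hie, h5, if_true, if_false]
        ring
    · have ho' : ¬ e = o := fun h => ho h.symm
      by_cases hc : c = e
      · have h5 := (hj (Or.inr hc)).2 i hi
        simp only [ho, ho', hc, hie, h5, if_true, if_false]
        ring
      · have hc' : ¬ e = c := fun h => hc h.symm
        simp only [ho, ho', hc, hc', if_false]
        ring
  · have h1 := B.adj
    rw [split_sum he, hk] at h1
    have h3 : ∑ j ∈ S.erase e, (k j - a e j) * v j =
        ∑ j ∈ S.erase e, k j * v j - ∑ j ∈ S.erase e, a e j * v j := by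
      rw [← sum_sub_distrib]
      exact sum_congr rfl fun j _ => by ring
    rw [h3]
    by_cases ho : o = e
    · have h5 := hv (Or.inl ho)
      by_cases hc : c = e
      · subst ho; subst hc
        simp only [if_true] at h2 h5 ⊢
        omega
      · have hc' : ¬ e = c := fun h => hc h.symm
        subst ho
        simp only [hc, hc', if_true, if_false] at h2 h5 ⊢
        omega
    · have ho' : ¬ e = o := fun h => ho h.symm
      by_cases hc : c = e
      · have h5 := hv (Or.inr hc)
        subst hc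
        simp only [ho, ho', if_true, if_false] at h2 h5 ⊢
        omega
      · have hc' : ¬ e = c := fun h => hc h.symm
        simp only [ho, ho', hc, hc', if_false] at h2 ⊢
        omega
  · have h1 := B.bd
    rw [split_sum he, hb, zero_mul, zero_add] at h1
    exact h1

theorem beta_zero {S : Finset I} {a : I → I → ℤ} {k β : I → ℤ} {o c : I} {v : I → ℤ}
    (B : Bub S a k β o c v) (hβ : ∀ i ∈ S, 0 ≤ β i) {e : I} (he : e ∈ S) (hv : v e ≠ 0) :
    β e = 0 := by
  have h := (sum_eq_zero_iff_of_nonneg fun j hj => mul_nonneg (hβ j hj) (B.nn j hj)).1 B.bd e he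
  exact (mul_eq_zero.1 h).resolve_right hv

theorem base_case {S : Finset I} {a : I → I → ℤ} {k β : I → ℤ} {o c : I} {v : I → ℤ}
    (B : Bub S a k β o c v) (ho : o ∈ S) (hc : c ∈ S) (h : ∀ e ∈ S, v e ≠ 0 → 0 ≤ k e) :
    v c = 0 ∧ v o = 0 := by
  have h1 : 0 ≤ ∑ j ∈ S, k j * v j := by
    refine sum_nonneg fun j hj => ?_
    by_cases h2 : v j = 0
    · rw [h2, mul_zero]
    · exact mul_nonneg (h j hj h2) (B.nn j hj)
  have h2 := B.adj
  have h3 := B.nn o ho
  have h4 := B.nn c hc
  omega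

theorem num_aux (m d β v w : I → ℤ) (M : ℤ) (n : ℕ) : ∀ (S : Finset I) (a : I → I → ℤ)
    (k η : I → ℤ) (o c c' : I), S.card = n → Fib S a m k M d η β → o ∈ S → c ∈ S → c' ∈ S →
    m o = 1 → m c = 1 → m c' = 1 → Bub S a k β o c v → Bub S a k β o c' w →
    v c = 0 ∧ w c' = 0 ∧ (w c = 0 ∨ d c' + M * w c ≤ d c) := by
  induction n with
  | zero =>
    intro S a k η o c c' hS _ ho
    rw [card_eq_zero.1 hS] at ho
    exact absurd ho (notMem_empty o)
  | succ n ih =>
    intro S a k η o c c' hS F ho hc hc' mo mc mc' V W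
    by_cases hbase : ∀ e ∈ S, (v e ≠ 0 ∨ w e ≠ 0) → 0 ≤ k e
    · obtain ⟨h1, -⟩ := base_case V ho hc fun e he h => hbase e he (Or.inl h)
      obtain ⟨h3, h4⟩ := base_case W ho hc' fun e he h => hbase e he (Or.inr h)
      exact ⟨h1, h3, Or.inl (zero_b F.symm F.off ho hc V W h4)⟩
    push Not at hbase
    obtain ⟨e, he, hvw, hk0⟩ := hbase
    have hb : β e = 0 := by
      rcases hvw with h | h
      · exact beta_zero V F.beta he h
      · exact beta_zero W F.beta he h
    obtain ⟨hk, ha⟩ := exc F he hk0 hb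
    have F' := F.contract he hk ha hb
    obtain ⟨j0, hj⟩ : ∃ j0 : I, m e = 1 → j0 ∈ S.erase e ∧ m j0 = 1 ∧
        ∀ j ∈ S.erase e, a e j = if j = j0 then 1 else 0 := by
      by_cases hm : m e = 1
      · obtain ⟨j0, h1, h2, h3⟩ := nbr F he ha hm
        exact ⟨j0, fun _ => ⟨h1, h2, h3⟩⟩
      · exact ⟨e, fun h => absurd h hm⟩
    have hmem : ∀ x ∈ S, m x = 1 →
        (if x = e then j0 else x) ∈ S.erase e ∧ m (if x = e then j0 else x) = 1 := by
      intro x hx mx
      by_cases h : x = e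
      · rw [if_pos h]
        have h1 := hj (h ▸ mx)
        exact ⟨h1.1, h1.2.1⟩
      · rw [if_neg h]
        exact ⟨mem_erase.2 ⟨h, hx⟩, mx⟩
    have hjj : ∀ x : I, m x = 1 → o = e ∨ x = e →
        j0 ∈ S.erase e ∧ ∀ j ∈ S.erase e, a e j = if j = j0 then 1 else 0 := by
      intro x mx h
      have h1 : m e = 1 := by
        rcases h with h | h
        · exact h ▸ mo
        · exact h ▸ mx
      exact ⟨(hj h1).1, (hj h1).2.2⟩
    obtain ⟨V', hV⟩ := V.contract F.symm he hk ha hb j0 (hjj c mc)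
    obtain ⟨W', hW⟩ := W.contract F.symm he hk ha hb j0 (hjj c' mc')
    have hcard : (S.erase e).card = n := by rw [card_erase_of_mem he, hS]; rfl
    obtain ⟨i1, i2, i3⟩ := ih (S.erase e) _ _ _ _ _ _ hcard F' (hmem o ho mo).1 (hmem c hc mc).1
      (hmem c' hc' mc').1 (hmem o ho mo).2 (hmem c hc mc).2 (hmem c' hc' mc').2 V' W'
    have key : ∀ (x : I) (u : I → ℤ), 0 ≤ u e → x = e → u (if x = e then j0 else x) = 0 →
        (o = e ∨ x = e → u j0 = u e + (if e = x then 1 else 0) - (if e = o then 1 else 0)) →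
        o = e ∧ u e = 0 := by
      intro x u hu hx h1 h2
      rw [if_pos hx] at h1
      have h3 := h2 (Or.inr hx)
      rw [if_pos hx.symm, h1] at h3
      by_cases h4 : e = o
      · rw [if_pos h4] at h3
        exact ⟨h4.symm, by omega⟩
      · rw [if_neg h4] at h3
        omega
    have g1 : v c = 0 := by
      by_cases h : c = e
      · rw [h]; exact (key c v (V.nn e he) h i1 hV).2
      · rw [if_neg h] at i1; exact i1
    have g2 : w c' = 0 := by
      by_cases h : c' = e
      · rw [h]; exact (key c' w (W.nn e he) h i2 hW).2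
      · rw [if_neg h] at i2; exact i2
    refine ⟨g1, g2, ?_⟩
    by_cases h' : c' = e
    · have h1 := key c' w (W.nn e he) h' i2 hW
      exact Or.inl (zero_b F.symm F.off ho hc V W (by rw [h1.1]; exact h1.2))
    by_cases h : c = e
    · right
      have hoe := (key c v (V.nn e he) h i1 hV).1
      have h1 := hW (Or.inl hoe)
      rw [if_neg fun h2 => h' h2.symm, if_pos hoe.symm] at h1
      obtain ⟨h2, h3⟩ := hjj c mc (Or.inr h)
      have h4 := F.can e he
      have h5 : ∑ j ∈ S.erase e, a e j * d j = d j0 := by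
        rw [sum_congr rfl fun j hj => by rw [h3 j hj]]
        simp only [ite_mul, one_mul, zero_mul]
        rw [sum_ite_eq' (S.erase e) j0, if_pos h2]
      rw [split_sum he, h5, ha, hk, hb] at h4
      have h6 := F.eta e he
      rw [if_pos h, if_neg h'] at i3
      rw [h]
      have h7 : w e = w j0 + 1 := by omega
      rcases i3 with i3 | i3
      · have h8 := zero_a F'.off (hmem o ho mo).1 W' (by rw [if_pos hoe]; exact i3)
        rw [if_pos hoe, if_neg h'] at h8
        rw [h7, i3, ← h8]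
        omega
      · rw [h7, mul_add]
        omega
    · rw [if_neg h, if_neg h'] at i3
      exact i3

/-- The numerical contraction lemma. -/
theorem num {J : Type*} [Fintype J] [DecidableEq J] (a : J → J → ℤ) (m k d η β v w : J → ℤ) (M : ℤ)
    (o c c' : J) (symm : ∀ i j, a i j = a j i) (off : ∀ i j, i ≠ j → 0 ≤ a i j)
    (mpos : ∀ i, 1 ≤ m i) (ker : ∀ i, ∑ j, a i j * m j = 0) (gen : ∀ i, -2 ≤ k i + a i i)
    (Mpos : 1 ≤ M) (eta : ∀ i, 0 ≤ η i) (beta : ∀ i, 0 ≤ β i)
    (can : ∀ i, ∑ j, a i j * d j + η i - M * β i = M * k i)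
    (mo : m o = 1) (mc : m c = 1) (mc' : m c' = 1)
    (vnn : ∀ i, 0 ≤ v i) (wnn : ∀ i, 0 ≤ w i)
    (vrow : ∀ i, ∑ j, a i j * v j = (if i = c then 1 else 0) - (if i = o then 1 else 0))
    (wrow : ∀ i, ∑ j, a i j * w j = (if i = c' then 1 else 0) - (if i = o then 1 else 0))
    (vadj : ∑ j, k j * v j + v c + v o = 0) (wadj : ∑ j, k j * w j + w c' + w o = 0)
    (vbd : ∑ j, β j * v j = 0) (wbd : ∑ j, β j * w j = 0) :
    v c = 0 ∧ w c' = 0 ∧ (w c = 0 ∨ d c' + M * w c ≤ d c) :=
  num_aux m d β v w M _ univ a k η o c c' rfl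
    ⟨fun i _ j _ => symm i j, fun i _ j _ => off i j, fun i _ => mpos i, fun i _ => ker i,
      fun i _ => gen i, Mpos, fun i _ => eta i, fun i _ => beta i, fun i _ => can i⟩
    (mem_univ _) (mem_univ _) (mem_univ _) mo mc mc'
    ⟨fun i _ => vnn i, fun i _ => vrow i, vadj, vbd⟩ ⟨fun i _ => wnn i, fun i _ => wrow i, wadj, wbd⟩

end Pool.Agent.MP_c69980_ag.N36
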